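import Pool.Agent.Run7.h558.Typ

/-!
# Typical-start cutoff fails under the relaxation-time condition

Continuous-time doubling chains on `ℤ/2^n` with refreshments at a small rate.
-/

set_option autoImplicit false
open Finset Filter Topology

namespace Pool.Agent.Results.MP_d1aba8_pr.TypicalStart

/-- A finite irreducible continuous-time Markov chain with its stationary distribution. -/
structure Chain where
  /-- the state space -/
  S : Type
  fin : Fintype S
  dec : DecidableEq S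
  /-- the generator -/
  Q : Matrix S S ℝ
  /-- the stationary distribution -/
  π : S → ℝ
  off_nonneg : ∀ x y, x ≠ y → 0 ≤ Q x y
  row_zero : ∀ x, ∑ y, Q x y = 0
  irreducible : ∀ x y, Relation.ReflTransGen (fun a b => 0 < Q a b) x y
  π_nonneg : ∀ x, 0 ≤ π x
  π_one : ∑ x, π x = 1
  stationary : ∀ y, ∑ x, π x * Q x y = 0

attribute [instance] Chain.fin Chain.dec

/-- The law at time `t` of the chain started at `x`. -/
noncomputable def Chain.law (c : Chain) (x : c.S) (t : ℝ) : c.S → ℝ :=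
  fun y => NormedSpace.exp (t • c.Q) x y

/-- Total variation distance at time `t` from the stationary distribution, started at `x`. -/
noncomputable def Chain.dist (c : Chain) (x : c.S) (t : ℝ) : ℝ :=
  ⨆ A : Finset c.S, |∑ a ∈ A, c.law x t a - ∑ a ∈ A, c.π a|

/-- The mixing time `τ_x` of the start `x`. -/
noncomputable def Chain.tau (c : Chain) (x : c.S) : ℝ := sInf {t | 0 ≤ t ∧ c.dist x t ≤ 1 / 4}

open Classical in
/-- The stationary measure of a set of states. -/
noncomputable def Chain.prob (c : Chain) (p : c.S → Prop) : ℝ := ∑ x with p x, c.π x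

/-- `m` is a median of `τ_x` for `x` drawn from the stationary distribution. -/
def Chain.IsMedian (c : Chain) (m : ℝ) : Prop :=
  1 / 2 ≤ c.prob (fun x => c.tau x ≤ m) ∧ 1 / 2 ≤ c.prob (fun x => m ≤ c.tau x)

/-- `g` is the spectral gap: the smallest real part of a nonzero eigenvalue `z` of `-Q`. -/
def Chain.IsGap (c : Chain) (g : ℝ) : Prop :=
  IsLeast {ρ : ℝ | ∃ z : ℂ, z ≠ 0 ∧ (∃ f : c.S → ℂ, f ≠ 0 ∧
    Matrix.mulVec (c.Q.map (fun a : ℝ => (a : ℂ))) f = (-z) • f) ∧ z.re = ρ} g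

/-! ### Medians exist -/

lemma prob_mono (c : Chain) {p q : c.S → Prop} (h : ∀ x, p x → q x) : c.prob p ≤ c.prob q := by
  classical
  unfold Chain.prob
  refine sum_le_sum_of_subset_of_nonneg ?_ fun x _ _ => c.π_nonneg x
  intro x hx
  simp only [mem_filter, mem_univ, true_and] at hx ⊢
  exact h x hx

lemma prob_compl (c : Chain) (p : c.S → Prop) : c.prob p + c.prob (fun x => ¬ p x) = 1 := by
  classical
  unfold Chain.prob
  rw [sum_filter_add_sum_filter_not, c.π_one]

lemma prob_true (c : Chain) {p : c.S → Prop} (h : ∀ x, p x) : c.prob p = 1 := by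
  classical
  unfold Chain.prob
  rw [filter_true_of_mem (fun x _ => h x), c.π_one]

lemma prob_false (c : Chain) {p : c.S → Prop} (h : ∀ x, ¬ p x) : c.prob p = 0 := by
  classical
  unfold Chain.prob
  rw [filter_false_of_mem (fun x _ => h x), sum_empty]

lemma exists_median (c : Chain) : ∃ m, c.IsMedian m := by
  classical
  have hne : (univ : Finset c.S).Nonempty := by
    rw [nonempty_iff_ne_empty]
    intro h
    have := c.π_one
    rw [h, sum_empty] at this
    norm_num at this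
  let V := ((univ : Finset c.S).image c.tau).filter fun s => 1 / 2 ≤ c.prob (fun x => c.tau x ≤ s)
  have hV : V.Nonempty := by
    obtain ⟨x0, -, hx0⟩ := exists_max_image univ c.tau hne
    refine ⟨c.tau x0, mem_filter.2 ⟨mem_image_of_mem _ (mem_univ _), ?_⟩⟩
    rw [prob_true c fun x => hx0 x (mem_univ x)]
    norm_num
  refine ⟨V.min' hV, (mem_filter.1 (V.min'_mem hV)).2, ?_⟩
  by_contra hcon
  have h1 := prob_compl c fun x => V.min' hV ≤ c.tau x
  have h2 : 1 / 2 < c.prob (fun x => ¬ V.min' hV ≤ c.tau x) := by linarith [not_le.1 hcon]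
  have hW : ((univ : Finset c.S).filter fun x => ¬ V.min' hV ≤ c.tau x).Nonempty := by
    by_contra h
    rw [not_nonempty_iff_eq_empty] at h
    rw [prob_false c fun x hx => (filter_eq_empty_iff.1 h) (mem_univ x) hx] at h2
    norm_num at h2
  obtain ⟨x0, hx0, hmax⟩ := exists_max_image _ c.tau hW
  have hx0' : c.tau x0 < V.min' hV := not_le.1 (mem_filter.1 hx0).2
  have h3 : c.tau x0 ∈ V := by
    refine mem_filter.2 ⟨mem_image_of_mem _ (mem_univ _), ?_⟩
    refine h2.le.trans (prob_mono c fun x hx => ?_)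
    exact hmax x (mem_filter.2 ⟨mem_univ _, hx⟩)
  exact absurd (V.min'_le _ h3) (not_le.2 hx0')

/-! ### The example -/

open Pool.Agent.Run7.h558.Typ in
/-- Doubling chain on `ℤ/2^(4m)`, `m = j + 3`, with refreshments at rate `4 log 2 / m`. -/
noncomputable def ex (j : ℕ) : Chain where
  S := ZMod (2 ^ (4 * (j + 3)))
  fin := inferInstance
  dec := inferInstance
  Q := Gen (4 * (j + 3)) (4 * Real.log 2 / ((j + 3 : ℕ) : ℝ))
  π := fun _ => 1 / 2 ^ (4 * (j + 3))
  off_nonneg x y h := (Gen_off _ _ (by have := Real.log_pos one_lt_two; positivity) x y h).le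
  row_zero := Gen_row _ _
  irreducible x y := by
    by_cases h : x = y
    · rw [h]
    · exact Relation.ReflTransGen.single
        (Gen_off _ _ (by have := Real.log_pos one_lt_two; positivity) x y h)
  π_nonneg _ := by positivity
  π_one := by
    simp only [sum_const, card_univ, ZMod.card, nsmul_eq_mul]
    push_cast
    field_simp
  stationary y := Gen_stat _ _ y

open Pool.Agent.Run7.h558.Typ in
lemma dist_le (j : ℕ) (x : (ex j).S) (t : ℝ) (ht : 0 ≤ t) :
    (ex j).dist x t ≤ Real.exp (-(4 * Real.log 2 / ((j + 3 : ℕ) : ℝ) * t)) := by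
  unfold Chain.dist
  refine ciSup_le fun A => ?_
  exact dev_le (4 * (j + 3)) _ t ht x A

open Pool.Agent.Run7.h558.Typ in
lemma dist_ge (j : ℕ) (x : (ex j).S) (t : ℝ) (ht : 0 ≤ t) (ht2 : t ≤ ((j + 3 : ℕ) : ℝ)) :
    Real.exp (-(4 * Real.log 2 / ((j + 3 : ℕ) : ℝ) * t)) / 2 ≤ (ex j).dist x t := by
  have h1 := dev_ge (4 * (j + 3)) (4 * Real.log 2 / ((j + 3 : ℕ) : ℝ)) t ht x (2 * (j + 3))
  have h2 : |∑ a ∈ Reach (4 * (j + 3)) (2 * (j + 3)) x, (ex j).law x t a -
      ∑ a ∈ Reach (4 * (j + 3)) (2 * (j + 3)) x, (ex j).π a| ≤ (ex j).dist x t :=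
    le_ciSup (f := fun A : Finset (ex j).S => |∑ a ∈ A, (ex j).law x t a - ∑ a ∈ A, (ex j).π a|)
      (Set.finite_range _).bddAbove (Reach (4 * (j + 3)) (2 * (j + 3)) x)
  refine le_trans ?_ (h1.trans h2)
  rw [div_eq_mul_one_div]
  refine mul_le_mul_of_nonneg_left ?_ (Real.exp_pos _).le
  set m := j + 3 with hm
  have hm3 : 3 ≤ m := by omega
  have a1 : Real.exp t / 2 ^ (2 * m) ≤ (3 / 4) ^ m := by
    have : Real.exp t ≤ 3 ^ m := by
      calc Real.exp t ≤ Real.exp ((m : ℕ) : ℝ) := Real.exp_le_exp.2 ht2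
        _ = Real.exp 1 ^ m := by rw [← Real.exp_nat_mul, mul_one]
        _ ≤ 3 ^ m := pow_le_pow_left₀ (Real.exp_pos _).le
            (by linarith [Real.exp_one_lt_d9]) m
    rw [pow_mul, div_pow, show ((2 : ℝ) ^ 2) = 4 by norm_num]
    exact div_le_div_of_nonneg_right this (by positivity)
  have a2 : (2 : ℝ) ^ (2 * m) / 2 ^ (4 * m) = (1 / 4) ^ m := by
    rw [show 4 * m = 2 * m + 2 * m by ring, pow_add, pow_mul, div_pow, one_pow,
      show ((2 : ℝ) ^ 2) = 4 by norm_num]
    field_simp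
  have a3 : ((3 : ℝ) / 4) ^ m ≤ (3 / 4) ^ 3 :=
    pow_le_pow_of_le_one (by norm_num) (by norm_num) hm3
  have a4 : ((1 : ℝ) / 4) ^ m ≤ (1 / 4) ^ 3 :=
    pow_le_pow_of_le_one (by norm_num) (by norm_num) hm3
  rw [a2]
  norm_num at a3 a4 ⊢
  linarith

lemma exp_quarter : Real.exp (-(2 * Real.log 2)) = 1 / 4 := by
  rw [show -(2 * Real.log 2) = -Real.log 2 + -Real.log 2 by ring, Real.exp_add, Real.exp_neg,
    Real.exp_log (by norm_num)]
  norm_num

lemma tau_le (j : ℕ) (x : (ex j).S) : (ex j).tau x ≤ ((j + 3 : ℕ) : ℝ) / 2 := by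
  refine csInf_le ⟨0, fun t ht => ht.1⟩ ⟨by positivity, ?_⟩
  refine (dist_le j x _ (by positivity)).trans (le_of_eq ?_)
  rw [← exp_quarter]
  congr 1
  field_simp
  ring

lemma le_tau (j : ℕ) (x : (ex j).S) : ((j + 3 : ℕ) : ℝ) / 4 ≤ (ex j).tau x := by
  have hm : (0 : ℝ) < ((j + 3 : ℕ) : ℝ) := by positivity
  refine le_csInf ⟨((j + 3 : ℕ) : ℝ) / 2, by positivity, ?_⟩ ?_
  · refine (dist_le j x _ (by positivity)).trans (le_of_eq ?_)
    rw [← exp_quarter]
    congr 1
    field_simp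
    ring
  · rintro t ⟨ht0, ht⟩
    by_contra hlt
    rw [not_le] at hlt
    have h1 := dist_ge j x t ht0 (by linarith)
    have h2 : (1 : ℝ) / 2 < Real.exp (-(4 * Real.log 2 / ((j + 3 : ℕ) : ℝ) * t)) := by
      have h3 : (1 : ℝ) / 2 = Real.exp (-Real.log 2) := by
        rw [Real.exp_neg, Real.exp_log (by norm_num)]; norm_num
      rw [h3]
      refine Real.exp_lt_exp.2 (neg_lt_neg ?_)
      have hl := Real.log_pos one_lt_two
      calc 4 * Real.log 2 / ((j + 3 : ℕ) : ℝ) * t
          < 4 * Real.log 2 / ((j + 3 : ℕ) : ℝ) * (((j + 3 : ℕ) : ℝ) / 4) :=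
            mul_lt_mul_of_pos_left hlt (by positivity)
        _ = Real.log 2 := by field_simp
    linarith

lemma median_bounds (j : ℕ) (m : ℝ) (h : (ex j).IsMedian m) :
    ((j + 3 : ℕ) : ℝ) / 4 ≤ m ∧ m ≤ ((j + 3 : ℕ) : ℝ) / 2 := by
  constructor
  · by_contra hlt
    rw [not_le] at hlt
    have h1 := h.1
    rw [prob_false (ex j) fun x hx => absurd (le_tau j x) (not_le.2 (lt_of_le_of_lt hx hlt))] at h1
    norm_num at h1
  · by_contra hlt
    rw [not_le] at hlt
    have h1 := h.2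
    rw [prob_false (ex j) fun x hx => absurd (tau_le j x) (not_le.2 (lt_of_lt_of_le hlt hx))] at h1
    norm_num at h1

open Pool.Agent.Run7.h558.Typ in
lemma gap_ex (j : ℕ) : (ex j).IsGap (1 + 4 * Real.log 2 / ((j + 3 : ℕ) : ℝ)) := by
  have hr : 0 < 4 * Real.log 2 / ((j + 3 : ℕ) : ℝ) := by
    have := Real.log_pos one_lt_two
    positivity
  constructor
  · obtain ⟨f, hf, h⟩ := eig_exists (4 * (j + 3)) (by omega) (4 * Real.log 2 / ((j + 3 : ℕ) : ℝ))
    refine ⟨1 + (4 * Real.log 2 / ((j + 3 : ℕ) : ℝ) : ℝ), ?_, ⟨f, hf, h⟩, ?_⟩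
    · intro h0
      have := congrArg Complex.re h0
      rw [Complex.add_re, Complex.one_re, Complex.ofReal_re, Complex.zero_re] at this
      linarith
    · rw [Complex.add_re, Complex.one_re, Complex.ofReal_re]
  · rintro ρ ⟨z, hz, ⟨f, hf, h⟩, rfl⟩
    rw [eig_eq (4 * (j + 3)) _ z hz f hf h, Complex.add_re, Complex.one_re, Complex.ofReal_re]

/-- There is a sequence of finite irreducible continuous-time chains with `τ / τ₂ → ∞` such that
both conclusions of typical-start cutoff fail completely for every small `ε`. -/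
theorem result : ∃ (c : ℕ → Chain) (g : ℕ → ℝ), (∀ n, (c n).IsGap (g n)) ∧
    (∀ n, ∃ m, (c n).IsMedian m) ∧
    ∀ τ : ℕ → ℝ, (∀ n, (c n).IsMedian (τ n)) →
      Tendsto (fun n => τ n / (1 / g n)) atTop atTop ∧
      ∀ ε : ℝ, 0 < ε → ε ≤ 1 / 20 → ∀ n,
        (c n).prob (fun x => 1 - ε < (c n).dist x ((1 - ε) * τ n)) = 0 ∧
        (c n).prob (fun x => (c n).dist x ((1 + ε) * τ n) < ε) = 0 := by
  have hl := Real.log_pos one_lt_two
  refine ⟨ex, fun n => 1 + 4 * Real.log 2 / ((n + 3 : ℕ) : ℝ), gap_ex,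
    fun n => exists_median _, fun τ hτ => ⟨?_, ?_⟩⟩
  · refine tendsto_atTop_mono (f := fun n : ℕ => (n : ℝ) / 4) (fun n => ?_)
      (tendsto_natCast_atTop_atTop.atTop_div_const (by norm_num))
    have h1 := (median_bounds n (τ n) (hτ n)).1
    rw [div_div_eq_mul_div, div_one]
    have h2 : (0 : ℝ) < 4 * Real.log 2 / ((n + 3 : ℕ) : ℝ) := by positivity
    have h3 : (n : ℝ) / 4 ≤ τ n := by
      refine le_trans ?_ h1
      push_cast
      linarith
    have h4 : (0 : ℝ) ≤ τ n := le_trans (by positivity) h3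
    nlinarith [mul_nonneg h4 h2.le]
  · intro ε he0 he n
    obtain ⟨h1, h2⟩ := median_bounds n (τ n) (hτ n)
    have hm : (0 : ℝ) < ((n + 3 : ℕ) : ℝ) := by positivity
    have hτ0 : 0 ≤ τ n := le_trans (by positivity) h1
    constructor
    · refine prob_false _ fun x hx => ?_
      have h3 := dist_le n x ((1 - ε) * τ n) (mul_nonneg (by linarith) hτ0)
      have h4 : Real.exp (-(4 * Real.log 2 / ((n + 3 : ℕ) : ℝ) * ((1 - ε) * τ n))) ≤
          Real.exp (-(Real.log 2 * (19 / 20))) := by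
        refine Real.exp_le_exp.2 (neg_le_neg ?_)
        have h5 : ((n + 3 : ℕ) : ℝ) / 4 * (19 / 20) ≤ (1 - ε) * τ n := by
          have : (19 / 20 : ℝ) ≤ 1 - ε := by linarith
          calc ((n + 3 : ℕ) : ℝ) / 4 * (19 / 20) ≤ τ n * (1 - ε) :=
                mul_le_mul h1 this (by norm_num) hτ0
            _ = (1 - ε) * τ n := by ring
        calc Real.log 2 * (19 / 20)
            = 4 * Real.log 2 / ((n + 3 : ℕ) : ℝ) * (((n + 3 : ℕ) : ℝ) / 4 * (19 / 20)) := by
              field_simp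
          _ ≤ _ := mul_le_mul_of_nonneg_left h5 (by positivity)
      have h6 : Real.exp (-(Real.log 2 * (19 / 20))) ≤ 1 - 1 / 20 := by
        have h7 : Real.exp (-(Real.log 2 * (19 / 20))) ≤ Real.exp (-(Real.log 2 * (1 / 2))) :=
          Real.exp_le_exp.2 (by nlinarith)
        have h8 : Real.exp (-(Real.log 2 * (1 / 2))) ^ 2 = 1 / 2 := by
          rw [← Real.exp_nat_mul, show ((2 : ℕ) : ℝ) * -(Real.log 2 * (1 / 2)) = -Real.log 2 by
            push_cast; ring, Real.exp_neg, Real.exp_log (by norm_num)]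
          norm_num
        have h9 := Real.exp_pos (-(Real.log 2 * (1 / 2)))
        nlinarith
      linarith
    · refine prob_false _ fun x hx => ?_
      have h3 := dist_ge n x ((1 + ε) * τ n) (mul_nonneg (by linarith) hτ0) (by nlinarith)
      have h4 : Real.exp (-(3 * Real.log 2)) ≤
          Real.exp (-(4 * Real.log 2 / ((n + 3 : ℕ) : ℝ) * ((1 + ε) * τ n))) := by
        refine Real.exp_le_exp.2 (neg_le_neg ?_)
        have h5 : (1 + ε) * τ n ≤ 3 / 4 * ((n + 3 : ℕ) : ℝ) := by nlinarith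
        calc 4 * Real.log 2 / ((n + 3 : ℕ) : ℝ) * ((1 + ε) * τ n)
            ≤ 4 * Real.log 2 / ((n + 3 : ℕ) : ℝ) * (3 / 4 * ((n + 3 : ℕ) : ℝ)) :=
              mul_le_mul_of_nonneg_left h5 (by positivity)
          _ = 3 * Real.log 2 := by field_simp
      have h6 : Real.exp (-(3 * Real.log 2)) = 1 / 8 := by
        rw [show -(3 * Real.log 2) = -Real.log 2 + (-(2 * Real.log 2)) by ring, Real.exp_add,
          exp_quarter, Real.exp_neg, Real.exp_log (by norm_num)]
        norm_num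
      rw [h6] at h4
      linarith

end Pool.Agent.Results.MP_d1aba8_pr.TypicalStart
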